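import Mathlib

/-!
# MP_0f9430_co : every interval graph is a unit max-tolerance graph
-/

namespace Pool.Agent.Results.MP_0f9430_co.UnitRep

open MeasureTheory Set

/-- `G` is an interval graph: the intersection graph of a family of real intervals (order-convex
subsets of `ℝ`, of any kind: open, closed, half-open, unbounded, degenerate). -/
def IsIntervalGraph {V : Type*} (G : SimpleGraph V) : Prop :=
  ∃ I : V → Set ℝ, (∀ v, (I v).OrdConnected) ∧
    ∀ u v, u ≠ v → (G.Adj u v ↔ (I u ∩ I v).Nonempty)

/-- `(L, R, t)` is a max-tolerance representation of `G`: closed intervals `[L v, R v]` and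
tolerances `t v > 0` such that distinct `u, v` are adjacent iff the length of the intersection is at
least `max (t u) (t v)`. -/
def IsMaxTolRep {V : Type*} (G : SimpleGraph V) (L R t : V → ℝ) : Prop :=
  (∀ v, L v ≤ R v) ∧ (∀ v, 0 < t v) ∧
    ∀ u v, u ≠ v → (G.Adj u v ↔
      max (t u) (t v) ≤ (volume (Icc (L u) (R u) ∩ Icc (L v) (R v))).toReal)

/-- `G` is a unit max-tolerance graph: it has a max-tolerance representation in which all intervals
have the same length. -/
def IsUnitMaxTolerance {V : Type*} (G : SimpleGraph V) : Prop :=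
  ∃ L R t : V → ℝ, IsMaxTolRep G L R t ∧ ∀ u v, R u - L u = R v - L v

/-- A finite interval graph has a representation of its non-isolated vertices by closed bounded
intervals. -/
lemma closed_rep {V : Type*} [Finite V] {G : SimpleGraph V} (h : IsIntervalGraph G) :
    ∃ l r : V → ℝ, (∀ v, l v ≤ r v) ∧ ∀ u v, u ≠ v → (∃ w, G.Adj u w) → (∃ w, G.Adj v w) →
      (G.Adj u v ↔ (l u ≤ r v ∧ l v ≤ r u)) := by
  classical
  have := Fintype.ofFinite V
  obtain ⟨I, hI, hadj⟩ := h
  have hp : ∀ u v, ∃ p : ℝ, G.Adj u v → p ∈ I u ∧ p ∈ I v := by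
    intro u v
    by_cases huv : G.Adj u v
    · obtain ⟨p, hp⟩ := (hadj u v huv.ne).1 huv
      exact ⟨p, fun _ => hp⟩
    · exact ⟨0, fun h => absurd h huv⟩
  choose p hp using hp
  -- the witness points of v
  let W : V → Finset ℝ := fun v =>
    (Finset.univ.filter fun w => G.Adj v w).image (fun w => p v w) ∪
    (Finset.univ.filter fun w => G.Adj v w).image (fun w => p w v)
  have hW : ∀ v w, G.Adj v w → p v w ∈ W v ∧ p w v ∈ W v := by
    intro v w hvw
    constructor
    · apply Finset.mem_union_left
      exact Finset.mem_image_of_mem _ (by simpa using hvw)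
    · apply Finset.mem_union_right
      exact Finset.mem_image_of_mem (fun w => p w v) (by simpa using hvw)
  have hWI : ∀ v, ∀ x ∈ W v, x ∈ I v := by
    intro v x hx
    rcases Finset.mem_union.1 hx with hx | hx
    · obtain ⟨w, hw, rfl⟩ := Finset.mem_image.1 hx
      exact (hp v w (by simpa using hw)).1
    · obtain ⟨w, hw, rfl⟩ := Finset.mem_image.1 hx
      have : G.Adj v w := by simpa using hw
      exact (hp w v this.symm).2
  have hex : ∀ v, ∃ a b : ℝ, a ≤ b ∧ ((∃ w, G.Adj v w) →
      (∀ x ∈ W v, a ≤ x ∧ x ≤ b) ∧ Icc a b ⊆ I v) := by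
    intro v
    by_cases hv : ∃ w, G.Adj v w
    · obtain ⟨w, hw⟩ := hv
      have hne : (W v).Nonempty := ⟨_, (hW v w hw).1⟩
      refine ⟨(W v).min' hne, (W v).max' hne, (W v).min'_le _ ((W v).max'_mem hne), fun _ =>
        ⟨fun x hx => ⟨(W v).min'_le x hx, (W v).le_max' x hx⟩, ?_⟩⟩
      exact (hI v).out (hWI v _ ((W v).min'_mem hne)) (hWI v _ ((W v).max'_mem hne))
    · exact ⟨0, 0, le_rfl, fun h => absurd h hv⟩
  choose l r hlr hlr' using hex
  refine ⟨l, r, hlr, ?_⟩
  intro u v huv hu hv
  constructor
  · intro hadj'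
    have h1 := ((hlr' u hu).1 _ (hW u v hadj').1)
    have h2 := ((hlr' v hv).1 _ (hW v u hadj'.symm).2)
    exact ⟨h1.1.trans h2.2, h2.1.trans h1.2⟩
  · rintro ⟨h1, h2⟩
    rw [hadj u v huv]
    refine ⟨max (l u) (l v), (hlr' u hu).2 ⟨le_max_left _ _, max_le (hlr u) h2⟩,
      (hlr' v hv).2 ⟨le_max_right _ _, max_le h1 (hlr v)⟩⟩

/-- A positive number smaller than all positive gaps. -/
lemma exists_eps {V : Type*} [Finite V] (l r : V → ℝ) :
    ∃ ε : ℝ, 0 < ε ∧ ∀ u v, (l u ≤ r v ↔ l u ≤ r v + ε) := by
  classical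
  have := Fintype.ofFinite V
  rcases isEmpty_or_nonempty V with hV | hV
  · exact ⟨1, one_pos, fun u => hV.elim u⟩
  let gap : V × V → ℝ := fun q => if 0 < l q.1 - r q.2 then l q.1 - r q.2 else 1
  have hpos : ∀ q, 0 < gap q := by
    intro q
    by_cases hq : 0 < l q.1 - r q.2
    · simp only [gap, hq, if_true]
    · simp only [gap, hq, if_false]; exact one_pos
  obtain ⟨q₀, hq₀⟩ := Finite.exists_min gap
  have h0 := hpos q₀
  refine ⟨gap q₀ / 2, by linarith, ?_⟩
  intro u v
  constructor
  · intro h
    linarith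
  · intro h
    by_contra hc
    have h1 : 0 < l u - r v := by linarith
    have h2 := hq₀ (u, v)
    have h3 : gap (u, v) = l u - r v := by simp only [gap, h1, if_true]
    linarith

/-- The length of the intersection of two intervals of length `ℓ`. -/
lemma len_inter (a b ℓ : ℝ) :
    (volume (Icc a (a + ℓ) ∩ Icc b (b + ℓ))).toReal = max (ℓ - |a - b|) 0 := by
  rw [Icc_inter_Icc, Real.volume_Icc, ENNReal.toReal_ofReal']
  congr 1
  rcases le_total a b with h | h
  · rw [max_eq_right h, min_eq_left (by linarith), abs_of_nonpos (by linarith)]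
    ring
  · rw [max_eq_left h, min_eq_right (by linarith), abs_of_nonneg (by linarith)]
    ring

/-- **MP_0f9430_co, Q1: yes.**  Every finite interval graph is a unit max-tolerance graph. -/
theorem result {V : Type*} [Finite V] (G : SimpleGraph V) (hG : IsIntervalGraph G) :
    IsUnitMaxTolerance G := by
  classical
  have := Fintype.ofFinite V
  obtain ⟨l, r, hlr, hadj⟩ := closed_rep hG
  obtain ⟨ε, hε, hgap⟩ := exists_eps l r
  -- positions and radii
  let x : V → ℝ := fun v => Real.exp (l v / ε)
  let y : V → ℝ := fun v => Real.exp ((r v + ε) / ε)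
  have hx : ∀ v, 0 < x v := fun v => Real.exp_pos _
  have hxy : ∀ v, 2 * x v ≤ y v := by
    intro v
    have h1 : (r v + ε) / ε = r v / ε + 1 := by field_simp
    have h2 : l v / ε ≤ r v / ε := div_le_div_of_nonneg_right (hlr v) hε.le
    have h3 : (2:ℝ) ≤ Real.exp 1 := by
      have := Real.add_one_le_exp (1:ℝ)
      linarith
    calc 2 * x v ≤ Real.exp 1 * Real.exp (r v / ε) := by
          apply mul_le_mul h3 (Real.exp_le_exp.2 h2) (hx v).le (Real.exp_pos _).le
      _ = y v := by
          show _ = Real.exp ((r v + ε) / ε)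
          rw [h1, Real.exp_add, mul_comm]
  have hcmp : ∀ u v, (l u ≤ r v ↔ x u ≤ y v) := by
    intro u v
    rw [hgap u v]
    show _ ↔ Real.exp (l u / ε) ≤ Real.exp ((r v + ε) / ε)
    rw [Real.exp_le_exp, div_le_div_iff_of_pos_right hε]
  -- common length
  obtain ⟨ℓ, hyℓ, hℓ0⟩ : ∃ ℓ : ℝ, (∀ v, y v + 1 ≤ ℓ) ∧ 0 < ℓ := by
    refine ⟨1 + ∑ v, y v, ?_, ?_⟩
    · intro v
      have := Finset.single_le_sum (f := y) (fun w _ => (Real.exp_pos _).le) (Finset.mem_univ v)
      linarith
    · have : 0 ≤ ∑ v, y v := Finset.sum_nonneg (fun w _ => (Real.exp_pos _).le)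
      linarith
  let t : V → ℝ := fun v => if ∃ w, G.Adj v w then ℓ - (y v - x v) else ℓ + 1
  have ht1 : ∀ v, (∃ w, G.Adj v w) → t v = ℓ - (y v - x v) := fun v hv => if_pos hv
  have ht2 : ∀ v, (¬ ∃ w, G.Adj v w) → t v = ℓ + 1 := fun v hv => if_neg hv
  refine ⟨x, fun v => x v + ℓ, t, ⟨fun v => by show x v ≤ x v + ℓ; linarith, ?_, ?_⟩,
    fun u v => by show x u + ℓ - x u = x v + ℓ - x v; ring⟩
  · intro v
    by_cases hv : ∃ w, G.Adj v w
    · rw [ht1 v hv]
      have := hyℓ v
      have := hx v
      linarith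
    · rw [ht2 v hv]; linarith
  · intro u v huv
    show _ ↔ max (t u) (t v) ≤ (volume (Icc (x u) (x u + ℓ) ∩ Icc (x v) (x v + ℓ))).toReal
    rw [len_inter]
    have habs : 0 ≤ |x u - x v| := abs_nonneg _
    by_cases hu : ∃ w, G.Adj u w
    · by_cases hv : ∃ w, G.Adj v w
      · rw [hadj u v huv hu hv, hcmp u v, hcmp v u, ht1 u hu, ht1 v hv]
        have a1 := hyℓ u
        have a2 := hyℓ v
        have a3 := hx u
        have a4 := hx v
        have a5 := hxy u
        have a6 := hxy v
        rw [max_le_iff, le_max_iff, le_max_iff]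
        constructor
        · rintro ⟨h1, h2⟩
          rcases le_total (x u) (x v) with h | h
          · rw [abs_of_nonpos (by linarith)]
            constructor <;> left <;> linarith
          · rw [abs_of_nonneg (by linarith)]
            constructor <;> left <;> linarith
        · rintro ⟨h1, h2⟩
          have h1' : |x u - x v| ≤ y u - x u := by
            rcases h1 with h1 | h1 <;> linarith
          have h2' : |x u - x v| ≤ y v - x v := by
            rcases h2 with h2 | h2 <;> linarith
          have b1 := le_abs_self (x u - x v)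
          have b2 := neg_abs_le (x u - x v)
          constructor <;> linarith
      · constructor
        · intro h
          exact absurd ⟨u, h.symm⟩ hv
        · intro h
          exfalso
          have h1 := (le_max_right (t u) (t v)).trans h
          rw [ht2 v hv] at h1
          rcases le_max_iff.1 h1 with h1 | h1 <;> linarith
    · constructor
      · intro h
        exact absurd ⟨v, h⟩ hu
      · intro h
        exfalso
        have h1 := (le_max_left (t u) (t v)).trans h
        rw [ht2 u hu] at h1
        rcases le_max_iff.1 h1 with h1 | h1 <;> linarith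

end Pool.Agent.Results.MP_0f9430_co.UnitRep
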